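import Mathlib
import Pool.Agent.H9.LatDef
import Pool.Agent.H9.LatA
import Pool.Agent.H9.LatB
import Pool.Agent.H9.LatC

namespace Pool.Agent.Results.MP_c7a479_co.Lower
open Pool.Agent.H9

theorem result (m n : ℕ) (hm : 3 ≤ m) (hn : 3 ≤ n) (h : n = 6 → 5 ≤ m) :
    m + 1 ∈ Pool.Agent.H9.LatDef.sizes m n := by
  by_cases h6 : n = 6
  · subst h6
    exact (LatC.six m (h rfl)).mem
  · exact ((LatA.mo_all (LatB.bsp n hn h6) m).2 hm).mem

end Pool.Agent.Results.MP_c7a479_co.Lower
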